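import Mathlib

/-!
# Block B of RAMIFIED COVERS: replacing the exponents by exponents prime to `r`

An exponent `x = r ^ e y` modulo `r ^ k` is replaced by the solutions `y + r ^ (k - e) j` of
`r ^ e z = x`.
-/

set_option autoImplicit false

open Finset

namespace Pool.Agent.Helper79.RC

theorem prod_shift {E : Type*} [Field E] {ζ : E} {r k e : ℕ} (y : ℕ) (hr : 0 < r) (he : e ≤ k)
    (hζ : IsPrimitiveRoot ζ (r ^ k)) :
    ∏ j : Fin (r ^ e), (1 - ζ ^ (y + r ^ (k - e) * (j : ℕ))) = 1 - ζ ^ (r ^ e * y) := by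
  have hk : r ^ k = r ^ (k - e) * r ^ e := by rw [← pow_add, Nat.sub_add_cancel he]
  have hω : IsPrimitiveRoot (ζ ^ r ^ (k - e)) (r ^ e) := hζ.pow (pow_pos hr k) hk
  have hpos : 0 < r ^ e := pow_pos hr e
  have h1 := hω.pow_sub_pow_eq_prod_sub_mul 1 (ζ ^ y) hpos
  rw [one_pow, ← pow_mul, mul_comm y] at h1
  rw [h1]
  refine Finset.prod_bij (fun j _ => (ζ ^ r ^ (k - e)) ^ (j : ℕ)) ?_ ?_ ?_ ?_
  · intro j _
    rw [Polynomial.mem_nthRootsFinset hpos, ← pow_mul, mul_comm, pow_mul, hω.pow_eq_one, one_pow]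
  · intro i _ j _ hij
    exact Fin.ext (hω.pow_inj i.2 j.2 hij)
  · intro ξ hξ
    rw [Polynomial.mem_nthRootsFinset hpos] at hξ
    have : NeZero (r ^ e) := ⟨hpos.ne'⟩
    obtain ⟨i, hi, h2⟩ := hω.eq_pow_of_pow_eq_one hξ
    exact ⟨⟨i, hi⟩, mem_univ _, h2⟩
  · intro j _
    rw [pow_add, pow_mul, mul_comm]

theorem sum_fin_val (R : ℕ) (hR : Odd R) : ∑ j : Fin R, (j : ℕ) = R * ((R - 1) / 2) := by
  rw [Fin.sum_univ_eq_sum_range (fun j => j) R, Finset.sum_range_id]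
  obtain ⟨c, hc⟩ := hR
  subst hc
  have h1 : 2 * c + 1 - 1 = 2 * c := by omega
  rw [h1, Nat.mul_div_cancel_left _ (by norm_num : 0 < 2), mul_comm (2 * c + 1) (2 * c), mul_assoc,
    Nat.mul_div_cancel_left _ (by norm_num : 0 < 2), mul_comm]

theorem sum_perm {R G q : ℕ} (hR0 : 0 < R) (hR : Odd R) (hG : R.Coprime G) :
    ∑ j : Fin R, ((q + G * (j : ℕ)) % R) = R * ((R - 1) / 2) := by
  let f : Fin R → Fin R := fun j => ⟨(q + G * (j : ℕ)) % R, Nat.mod_lt _ hR0⟩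
  have hf : Function.Injective f := by
    intro i j hij
    have h1 : (q + G * (i : ℕ)) % R = (q + G * (j : ℕ)) % R := congrArg Fin.val hij
    have h2 : G * (i : ℕ) ≡ G * (j : ℕ) [MOD R] := Nat.ModEq.add_left_cancel' q h1
    have h3 : (i : ℕ) ≡ (j : ℕ) [MOD R] := Nat.ModEq.cancel_left_of_coprime hG h2
    have h4 : (i : ℕ) % R = (j : ℕ) % R := h3
    rw [Nat.mod_eq_of_lt i.2, Nat.mod_eq_of_lt j.2] at h4
    exact Fin.ext h4
  have hb : Function.Bijective f := Finite.injective_iff_bijective.1 hf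
  have h5 : ∑ j : Fin R, ((f j : Fin R) : ℕ) = ∑ j : Fin R, (j : ℕ) :=
    hb.sum_comp fun j : Fin R => (j : ℕ)
  rw [← sum_fin_val R hR, ← h5]

theorem sum_shift {r k e : ℕ} (y : ℕ) (hr : 0 < r) (hr1 : Odd r) (he : e ≤ k) [NeZero (r ^ k)]
    (g : (ZMod (r ^ k))ˣ) :
    ∑ j : Fin (r ^ e), ((g : ZMod (r ^ k)) * ((y + r ^ (k - e) * (j : ℕ) : ℕ) : ZMod (r ^ k))).val =
      ((g : ZMod (r ^ k)) * ((r ^ e * y : ℕ) : ZMod (r ^ k))).val + (r ^ e - 1) / 2 * r ^ k := by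
  set G := (g : ZMod (r ^ k)).val with hG
  have hg : (g : ZMod (r ^ k)) = (G : ZMod (r ^ k)) := (ZMod.natCast_zmod_val _).symm
  have hcop : G.Coprime (r ^ k) := ZMod.val_coe_unit_coprime g
  have hk : r ^ k = r ^ (k - e) * r ^ e := by rw [← pow_add, Nat.sub_add_cancel he]
  have hM : 0 < r ^ (k - e) := pow_pos hr _
  have hR : 0 < r ^ e := pow_pos hr _
  have hcop2 : (r ^ e).Coprime G := by
    rw [hk] at hcop
    exact (Nat.Coprime.coprime_mul_left_right hcop).symm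
  have h1 : ∀ j : Fin (r ^ e),
      ((g : ZMod (r ^ k)) * ((y + r ^ (k - e) * (j : ℕ) : ℕ) : ZMod (r ^ k))).val =
        (G * y) % r ^ (k - e) + r ^ (k - e) * (((G * y) / r ^ (k - e) + G * (j : ℕ)) % r ^ e) := by
    intro j
    rw [hg, ← Nat.cast_mul, ZMod.val_natCast]
    have h2 : G * (y + r ^ (k - e) * (j : ℕ)) = G * y + r ^ (k - e) * (G * (j : ℕ)) := by ring
    rw [h2]
    have h3 : (G * y + r ^ (k - e) * (G * (j : ℕ))) % r ^ k =
        (G * y + r ^ (k - e) * (G * (j : ℕ))) % (r ^ (k - e) * r ^ e) := by rw [← hk]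
    rw [h3, Nat.mod_mul, Nat.add_mul_mod_self_left, Nat.add_mul_div_left _ _ hM]
  rw [sum_congr rfl fun j _ => h1 j, sum_add_distrib, sum_const, card_univ, Fintype.card_fin,
    smul_eq_mul, ← mul_sum, sum_perm hR hr1.pow hcop2, hg, ← Nat.cast_mul, ZMod.val_natCast]
  have h4 : G * (r ^ e * y) % r ^ k = r ^ e * (G * y % r ^ (k - e)) := by
    have h5 : G * (r ^ e * y) = r ^ e * (G * y) := by ring
    have h6 : r ^ k = r ^ e * r ^ (k - e) := by rw [hk, mul_comm]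
    have h7 : r ^ e * (G * y) % r ^ k = r ^ e * (G * y) % (r ^ e * r ^ (k - e)) := by rw [← h6]
    rw [h5, h7, Nat.mul_mod_mul_left]
  rw [h4]
  have h8 : r ^ (k - e) * (r ^ e * ((r ^ e - 1) / 2)) = (r ^ e - 1) / 2 * r ^ k := by
    rw [hk]
    ring
  rw [h8]

/-- Ten exponents modulo `r ^ k` are replaced by an even number of exponents prime to `r`. -/
theorem refine_ten {r k : ℕ} [hr : Fact r.Prime] (hr2 : r ≠ 2) (x : Fin 10 → ZMod (r ^ k))
    (hx : ∀ i, x i ≠ 0) :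
    ∃ (ι : Type) (_ : Fintype ι) (s : ℕ) (v : ι → ℕ), Fintype.card ι = 2 * s ∧ 5 ≤ s ∧
      (∀ D, ((v D : ℕ) : ZMod r) ≠ 0) ∧
      (∀ {E : Type} [Field E] {ζ : E}, IsPrimitiveRoot ζ (r ^ k) →
        ∏ D, (1 - ζ ^ v D) = ∏ i, (1 - ζ ^ (x i).val)) ∧
      ∀ g : (ZMod (r ^ k))ˣ, ∑ D, ((g : ZMod (r ^ k)) * ((v D : ℕ) : ZMod (r ^ k))).val +
        5 * r ^ k = ∑ i, ((g : ZMod (r ^ k)) * x i).val + s * r ^ k := by
  have : NeZero (r ^ k) := ⟨pow_ne_zero k hr.out.ne_zero⟩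
  have hodd : Odd r := hr.out.odd_of_ne_two hr2
  have h1 : ∀ i, ∃ e y : ℕ, ¬ r ∣ y ∧ (x i).val = r ^ e * y := fun i =>
    Nat.exists_eq_pow_mul_and_not_dvd (fun h => hx i ((ZMod.val_eq_zero _).1 h)) r
      hr.out.ne_one
  choose e y hy hxy using h1
  have he : ∀ i, e i < k := by
    intro i
    have h2 : r ^ e i < r ^ k := by
      refine lt_of_le_of_lt ?_ (ZMod.val_lt (x i))
      rw [hxy i]
      refine Nat.le_mul_of_pos_right _ (Nat.pos_of_ne_zero ?_)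
      rintro h
      exact hy i (h ▸ dvd_zero r)
    exact (Nat.pow_lt_pow_iff_right hr.out.one_lt).1 h2
  have hx2 : ∀ i, x i = ((r ^ e i * y i : ℕ) : ZMod (r ^ k)) := by
    intro i
    rw [← hxy, ZMod.natCast_zmod_val]
  have hc : ∀ i, r ^ e i = 2 * ((r ^ e i - 1) / 2) + 1 := by
    intro i
    obtain ⟨c, hc⟩ := hodd.pow (n := e i)
    omega
  refine ⟨Σ i : Fin 10, Fin (r ^ e i), inferInstance, ∑ i, (r ^ e i - 1) / 2 + 5,
    fun D => y D.1 + r ^ (k - e D.1) * (D.2 : ℕ), ?_, by omega, ?_, ?_, ?_⟩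
  · rw [Fintype.card_sigma]
    simp only [Fintype.card_fin]
    rw [sum_congr rfl fun i _ => hc i, sum_add_distrib, ← mul_sum]
    simp
    ring
  · rintro ⟨i, j⟩ h
    apply hy i
    have h2 : ((r ^ (k - e i) * (j : ℕ) : ℕ) : ZMod r) = 0 := by
      rw [ZMod.natCast_eq_zero_iff]
      exact Dvd.dvd.mul_right (dvd_pow_self r (by have := he i; omega)) _
    rw [Nat.cast_add, h2, add_zero, ZMod.natCast_eq_zero_iff] at h
    exact h
  · intro E _ ζ hζ
    rw [Fintype.prod_sigma]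
    refine prod_congr rfl fun i _ => ?_
    rw [prod_shift (y i) hr.out.pos (he i).le hζ, hxy i]
  · intro g
    rw [Fintype.sum_sigma]
    rw [sum_congr rfl fun i _ => sum_shift (y i) hr.out.pos hodd (he i).le g, sum_add_distrib]
    simp only [← hx2, ← sum_mul]
    ring

end Pool.Agent.Helper79.RC
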