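import Pool.Agent.Helper73.QC.NonRes
import Pool.Agent.Helper79.RC.Refine
import Pool.Agent.Helper41.RC.Field

/-!
# Block B of RAMIFIED COVERS: the parity of the heights
-/

set_option autoImplicit false

open Finset

namespace Pool.Agent.Helper79.RC

open Pool.Agent.Helper79.QC Pool.Agent.Helper73.QC

theorem exists_even_height {r k : ℕ} [hr : Fact r.Prime] (h4 : r % 4 = 3) (hk : 0 < k)
    (x : Fin 10 → ZMod (r ^ k)) (hsum : ∑ i, x i = 0)
    {ι : Type} [Fintype ι] {s : ℕ} (hs : Fintype.card ι = 2 * s) (h5 : 5 ≤ s) (v : ι → ℕ)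
    (hv : ∀ D, ((v D : ℕ) : ZMod r) ≠ 0)
    (hg : ∀ g : (ZMod (r ^ k))ˣ, ∑ D, ((g : ZMod (r ^ k)) * ((v D : ℕ) : ZMod (r ^ k))).val +
      5 * r ^ k = ∑ i, ((g : ZMod (r ^ k)) * x i).val + s * r ^ k)
    (hsq : IsSquare ((-1) ^ (s + 1) * ∏ D, ((v D : ℕ) : ZMod r)))
    (H : Subgroup (ZMod (r ^ k))ˣ) (hH : Odd (Nat.card H)) :
    ∃ h : (ZMod (r ^ k))ˣ, Even (∑ᶠ u : H,
      (∑ i, ((((u : (ZMod (r ^ k))ˣ) * h : (ZMod (r ^ k))ˣ) : ZMod (r ^ k)) * x i).val) / r ^ k) := by
  classical
  have hr2 : r ≠ 2 := by omega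
  have hrp := hr.out
  have hn0 : r ^ k ≠ 0 := pow_ne_zero k hrp.ne_zero
  have : NeZero (r ^ k) := ⟨hn0⟩
  have h1n : 1 < r ^ k := Nat.one_lt_pow hk.ne' hrp.one_lt
  set S : ℤ := ∑ D, (v D : ℤ) with hS
  -- the sum of the new exponents
  have hSn : ((r ^ k : ℕ) : ℤ) ∣ S := by
    rw [← ZMod.intCast_zmod_eq_zero_iff_dvd, hS]
    have h1 := congrArg (fun t : ℕ => (t : ZMod (r ^ k))) (hg 1)
    push_cast at h1
    simp only [one_mul, ZMod.natCast_val, ZMod.cast_id', id] at h1
    have h2 : ((r : ZMod (r ^ k)) ^ k) = 0 := by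
      have h3 := ZMod.natCast_self (r ^ k)
      push_cast at h3
      exact h3
    rw [h2, mul_zero, mul_zero, add_zero, add_zero, hsum] at h1
    push_cast
    exact h1
  have hSr : ((S : ℤ) : ZMod r) = 0 := by
    rw [ZMod.intCast_zmod_eq_zero_iff_dvd]
    refine dvd_trans ?_ hSn
    push_cast
    exact dvd_pow_self _ hk.ne'
  let b : Fin (s + 1) × Bool → ℤ := fun j => if j.2 then (1 - if j.1 = 0 then S else 0) else -1
  let a : ι ⊕ (Fin (s + 1) × Bool) → ℤ := Sum.elim (fun D => (v D : ℤ)) b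
  have hbr : ∀ j, ((b j : ℤ) : ZMod r) = if j.2 then 1 else -1 := by
    rintro ⟨j, c⟩
    cases c
    · simp [b]
    · by_cases hj : j = 0
      · simp [b, hj, hSr]
      · simp [b, hj]
  have hbn : ∀ j, ((b j : ℤ) : ZMod (r ^ k)) = if j.2 then 1 else -1 := by
    have hS0 : ((S : ℤ) : ZMod (r ^ k)) = 0 := by
      rw [ZMod.intCast_zmod_eq_zero_iff_dvd]
      exact hSn
    rintro ⟨j, c⟩
    cases c
    · simp [b]
    · by_cases hj : j = 0
      · simp [b, hj, hS0]
      · simp [b, hj]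
  have hcard : Even (Fintype.card (ι ⊕ (Fin (s + 1) × Bool))) := by
    rw [Fintype.card_sum, hs, Fintype.card_prod, Fintype.card_bool]
    exact ⟨s + (s + 1), by rw [Fintype.card_fin]; ring⟩
  have ha : ∀ D, ¬ (r : ℤ) ∣ a D := by
    intro D hD
    rw [← ZMod.intCast_zmod_eq_zero_iff_dvd] at hD
    rcases D with D | j
    · apply hv D
      simpa [a] using hD
    · have h1 : ((b j : ℤ) : ZMod r) = 0 := by simpa [a] using hD
      rw [hbr] at h1
      split_ifs at h1
      · exact one_ne_zero h1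
      · exact one_ne_zero (neg_eq_zero.1 h1)
  have hsum0 : ∑ D, a D = 0 := by
    rw [Fintype.sum_sum_type]
    simp only [a, Sum.elim_inl, Sum.elim_inr]
    rw [Fintype.sum_prod_type]
    simp only [Fintype.sum_bool, b, if_true, Bool.false_eq_true, if_false]
    have h1 : ∀ j : Fin (s + 1), ((1 : ℤ) - (if j = 0 then S else 0)) + -1 =
        -(if j = 0 then S else 0) := by
      intro j
      ring
    rw [sum_congr rfl fun j _ => h1 j, sum_neg_distrib, sum_ite_eq' univ (0 : Fin (s + 1)),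
      if_pos (mem_univ _), ← hS]
    ring
  have hns : ¬ IsSquare (((-∏ D, a D : ℤ)) : ZMod r) := by
    intro h
    have e1 : (((-∏ D, a D : ℤ)) : ZMod r) =
        -((-1) ^ (s + 1) * ∏ D, ((v D : ℕ) : ZMod r)) := by
      rw [Fintype.prod_sum_type]
      push_cast
      simp only [a, Sum.elim_inl, Sum.elim_inr]
      rw [prod_congr rfl fun j _ => hbr j, Fintype.prod_prod_type]
      simp
      ring
    rw [e1] at h
    obtain ⟨q, hq⟩ := hsq
    have hq0 : q ≠ 0 := by
      rintro rfl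
      rw [mul_zero] at hq
      have h2 : ∏ D, ((v D : ℕ) : ZMod r) ≠ 0 := prod_ne_zero_iff.2 fun D _ => hv D
      have h3 : ((-1 : ZMod r) ^ (s + 1)) ≠ 0 := pow_ne_zero _ (neg_ne_zero.2 one_ne_zero)
      exact mul_ne_zero h3 h2 hq
    rw [hq] at h
    obtain ⟨z, hz⟩ := h
    have h1 : IsSquare (-1 : ZMod r) := ⟨z / q, by field_simp; linear_combination hz⟩
    exact (ZMod.exists_sq_eq_neg_one_iff.1 h1) h4
  obtain ⟨h, hh⟩ := exists_even hr2 hk hcard a ha hsum0 hns H hH
  refine ⟨h, ?_⟩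
  -- the totals
  have htot : ∀ g : (ZMod (r ^ k))ˣ, total (r ^ k) a g / r ^ k =
      (∑ i, ((g : ZMod (r ^ k)) * x i).val) / r ^ k + 2 * (s - 2) := by
    intro g
    have hd : r ^ k ∣ ∑ i, ((g : ZMod (r ^ k)) * x i).val := by
      rw [← ZMod.natCast_eq_zero_iff]
      push_cast
      simp only [ZMod.natCast_val, ZMod.cast_id', id]
      rw [← mul_sum, hsum, mul_zero]
    obtain ⟨t, ht⟩ := hd
    have hpair : ∀ j : Fin (s + 1), ((g : ZMod (r ^ k)) * ((b (j, true) : ℤ) : ZMod (r ^ k))).val +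
        ((g : ZMod (r ^ k)) * ((b (j, false) : ℤ) : ZMod (r ^ k))).val = r ^ k := by
      intro j
      rw [hbn, hbn]
      simp only [if_true, Bool.false_eq_true, if_false, mul_one, mul_neg]
      have h1 := val_neg h1n g
      rw [Units.val_neg] at h1
      rw [h1]
      have h2 := ZMod.val_lt (g : ZMod (r ^ k))
      omega
    have h1 : total (r ^ k) a g =
        ∑ D, ((g : ZMod (r ^ k)) * ((v D : ℕ) : ZMod (r ^ k))).val + (s + 1) * r ^ k := by
      rw [total, Fintype.sum_sum_type]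
      simp only [a, Sum.elim_inl, Sum.elim_inr, Int.cast_natCast]
      rw [Fintype.sum_prod_type]
      simp only [Fintype.sum_bool]
      rw [sum_congr rfl fun j _ => hpair j, sum_const, card_univ, Fintype.card_fin, smul_eq_mul]
    have h2 := hg g
    rw [ht] at h2 ⊢
    obtain ⟨s', rfl⟩ := Nat.exists_eq_add_of_le h5
    have h3 : total (r ^ k) a g = r ^ k * (t + 2 * (5 + s' - 2)) := by
      have h4 : 5 + s' - 2 = 3 + s' := by omega
      rw [h1, h4]
      have h5' : ∑ D, ((g : ZMod (r ^ k)) * ((v D : ℕ) : ZMod (r ^ k))).val =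
          r ^ k * t + s' * r ^ k := by
        have h6 : (5 + s') * r ^ k = 5 * r ^ k + s' * r ^ k := by ring
        rw [h6] at h2
        omega
      rw [h5']
      ring
    rw [h3, Nat.mul_div_cancel_left _ (Nat.pos_of_ne_zero hn0),
      Nat.mul_div_cancel_left _ (Nat.pos_of_ne_zero hn0)]
  have : Fintype H := Fintype.ofFinite H
  rw [finsum_eq_sum_of_fintype] at hh ⊢
  rw [sum_congr rfl fun (u : H) _ => htot ((u : (ZMod (r ^ k))ˣ) * h), sum_add_distrib, sum_const,
    smul_eq_mul] at hh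
  have h6 : Even (Finset.card (univ : Finset H) * (2 * (s - 2))) :=
    (even_two_mul (s - 2)).mul_left _
  exact (Nat.even_add.1 hh).2 h6

/-- If a product of exponents prime to `r` which replace the ten exponents is a square up to a
sign, `r = 3 mod 4`, then one of the two criteria applies. -/
theorem dual_or_place {p r k : ℕ} [hp : Fact p.Prime] [hr : Fact r.Prime] (h4 : r % 4 = 3)
    (hk : 0 < k) (hpr : p ≠ r) {a : Fin 5 → ZMod (r ^ k)}
    {ι : Type} [Fintype ι] {s : ℕ} (hs : Fintype.card ι = 2 * s) (h5 : 5 ≤ s) (v : ι → ℕ)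
    (hv : ∀ D, ((v D : ℕ) : ZMod r) ≠ 0)
    (hg : ∀ g : (ZMod (r ^ k))ˣ, ∑ D, ((g : ZMod (r ^ k)) * ((v D : ℕ) : ZMod (r ^ k))).val +
      5 * r ^ k = ∑ i, ((g : ZMod (r ^ k)) * residues a i).val + s * r ^ k)
    (hsq : IsSquare ((-1) ^ (s + 1) * ∏ D, ((v D : ℕ) : ZMod r))) :
    SelfDual p a ∨ OddPlace p a := by
  have hr2 : r ≠ 2 := by omega
  have : NeZero (r ^ k) := ⟨pow_ne_zero k hr.out.ne_zero⟩
  have hcop0 : p.Coprime r := (Nat.coprime_primes hp.out hr.out).2 hpr
  have hcop : p.Coprime (r ^ k) := Nat.Coprime.pow_right k hcop0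
  have hself : ((r : ZMod (r ^ k)) ^ k) = 0 := by
    have h3 := ZMod.natCast_self (r ^ k)
    push_cast at h3
    exact h3
  by_cases hj : ∃ j, r ∣ p ^ j + 1
  · left
    obtain ⟨j, hj⟩ := hj
    have hd := dvd_pow_add_one' (hr.out.odd_of_ne_two hr2) hj k
    rw [← pow_mul] at hd
    have hf : (p : ZMod (r ^ k)) ^ (j * r ^ k) = -1 := by
      have h1 : ((p ^ (j * r ^ k) + 1 : ℕ) : ZMod (r ^ k)) = 0 :=
        (ZMod.natCast_eq_zero_iff _ _).2 hd
      push_cast at h1
      linear_combination h1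
    refine ⟨j * r ^ k, r, k, hr.out, hr2, ?_, ?_, 0, ?_⟩
    · intro i
      rw [hf]
      ring
    · intro i
      rw [mul_assoc, hself, zero_mul, mul_zero]
    · rw [hself, zero_mul]
  · right
    let P : (ZMod (r ^ k))ˣ := ZMod.unitOfCoprime p hcop
    have hP : (P : ZMod (r ^ k)) = p := ZMod.coe_unitOfCoprime p hcop
    set m := orderOf P with hm
    have hm0 : 0 < m := orderOf_pos P
    have hodd : Odd m := by
      rw [← Nat.not_even_iff_odd]
      rintro ⟨q, hq⟩
      apply hj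
      refine ⟨q, ?_⟩
      have h1 : P ^ q ≠ 1 := by
        intro h1
        have := Nat.le_of_dvd (by omega) (orderOf_dvd_of_pow_eq_one h1)
        omega
      have h2 : P ^ (q + q) = 1 := by rw [← hq, hm, pow_orderOf_eq_one]
      have hp1 : 1 ≤ p ^ q := Nat.one_le_pow _ _ hp.out.pos
      have h3 : r ^ k ∣ (p ^ q - 1) * (p ^ q + 1) := by
        have h4 := congrArg Units.val h2
        rw [Units.val_pow_eq_pow_val, hP, Units.val_one, pow_add] at h4
        rw [← ZMod.natCast_eq_zero_iff, Nat.cast_mul, Nat.cast_sub hp1]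
        push_cast
        linear_combination h4
      by_contra hnd
      have h4 : (r ^ k).Coprime (p ^ q + 1) :=
        ((Nat.Prime.coprime_iff_not_dvd hr.out).2 hnd).pow_left k
      have h5 := h4.dvd_of_dvd_mul_right h3
      apply h1
      rw [Units.ext_iff, Units.val_pow_eq_pow_val, hP, Units.val_one]
      rw [← ZMod.natCast_eq_zero_iff, Nat.cast_sub hp1] at h5
      push_cast at h5
      linear_combination h5
    have hsum : ∑ i, residues a i = 0 := by
      simp only [residues, Fin.sum_univ_succ, Fin.sum_univ_zero]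
      simp
      ring
    obtain ⟨h, hh⟩ := exists_even_height h4 hk (residues a) hsum hs h5 v hv hg hsq
      (Subgroup.zpowers P) (by rw [Nat.card_zpowers]; exact hodd)
    rw [finsum_zpowers P (fun u => (∑ i, (((u * h : (ZMod (r ^ k))ˣ) : ZMod (r ^ k)) *
      residues a i).val) / r ^ k)] at hh
    refine ⟨m, hm0, ?_, h, ?_⟩
    · intro i
      have h4 := congrArg Units.val (pow_orderOf_eq_one P)
      rw [Units.val_pow_eq_pow_val, hP, Units.val_one] at h4
      rw [h4, one_mul]
    · refine hodd.add_even ?_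
      have h1 : ∀ j, (height fun i => (h : ZMod (r ^ k)) * (p : ZMod (r ^ k)) ^ j * a i) =
          (∑ i, (((P ^ j * h : (ZMod (r ^ k))ˣ) : ZMod (r ^ k)) * residues a i).val) / r ^ k := by
        intro j
        rw [height]
        congr 1
        refine sum_congr rfl fun i _ => ?_
        rw [residues_mul, Units.val_mul, Units.val_pow_eq_pow_val, hP, mul_comm (h : ZMod (r ^ k))]
      rw [sum_congr rfl fun j _ => h1 j]
      exact hh

/-- **Block B.** If minus the product of the ten numbers `1 - ζ ^ x` is a norm, `r = 3 mod 4`, then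
one of the two criteria applies. -/
theorem dual_or_place_of_norm {p r k : ℕ} [hp : Fact p.Prime] [hr : Fact r.Prime]
    (h4 : r % 4 = 3) (hpr : p ≠ r) {E : Type} [Field E]
    (F : Pool.Agent.Helper41.RC.RField r (r ^ k) E) {a : Fin 5 → ZMod (r ^ k)}
    (ha : ∀ i, residues a i ≠ 0) (y : E)
    (hy : y * F.σ y = -∏ i, (1 - F.ζ ^ (residues a i).val)) : SelfDual p a ∨ OddPlace p a := by
  have hr2 : r ≠ 2 := by omega
  have hk : 0 < k := by
    rcases k.eq_zero_or_pos with h | h
    · subst h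
      exfalso
      apply ha 0
      have : Subsingleton (ZMod (r ^ 0)) := by
        rw [pow_zero]
        infer_instance
      exact Subsingleton.elim _ _
    · exact h
  have hn : 1 < r ^ k := Nat.one_lt_pow hk.ne' hr.out.one_lt
  obtain ⟨ι, iι, s, v, hs, h5, hv, hprod, hg⟩ := refine_ten hr2 (residues a) ha
  refine dual_or_place h4 hk hpr hs h5 v hv hg ?_
  refine F.isSquare_of_norm hn hs v hv y ?_
  rw [hy, hprod F.prim]

end Pool.Agent.Helper79.RC
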