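import Pool.Agent.Helper79.RC.TwoB

/-!
# Exponents modulo `2 r ^ k`: the criterion
-/

set_option autoImplicit false

open Finset

namespace Pool.Agent.Helper79.RC

open Pool.Agent.Helper79.QC Pool.Agent.Helper73.QC

/-- **The parity statement.** -/
theorem exists_even_total {r k : ℕ} [hr : Fact r.Prime] (h4 : r % 4 = 3) (hk : 0 < k)
    {ι : Type} [Fintype ι] {s : ℕ} (hs : Fintype.card ι = 2 * s) (v : ι → ℕ)
    (hv : ∀ D, ((v D : ℕ) : ZMod r) ≠ 0) (hSn : r ^ k ∣ ∑ D, v D)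
    (hsq : IsSquare ((-1) ^ (s + 1) * ∏ D, ((v D : ℕ) : ZMod r)))
    (H : Subgroup (ZMod (r ^ k))ˣ) (hH : Odd (Nat.card H)) :
    ∃ h : (ZMod (r ^ k))ˣ, Even (∑ᶠ u : H, ((∑ D, ((((u : (ZMod (r ^ k))ˣ) * h :
      (ZMod (r ^ k))ˣ) : ZMod (r ^ k)) * ((v D : ℕ) : ZMod (r ^ k))).val) / r ^ k + (s + 1))) := by
  classical
  have hr2 : r ≠ 2 := by omega
  have hrp := hr.out
  have hn0 : r ^ k ≠ 0 := pow_ne_zero k hrp.ne_zero
  have : NeZero (r ^ k) := ⟨hn0⟩
  have h1n : 1 < r ^ k := Nat.one_lt_pow hk.ne' hrp.one_lt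
  set S : ℤ := ∑ D, (v D : ℤ) with hS
  have hSn' : ((r ^ k : ℕ) : ℤ) ∣ S := by
    have h1 : S = ((∑ D, v D : ℕ) : ℤ) := by
      rw [hS]
      push_cast
      rfl
    rw [h1]
    exact Int.natCast_dvd_natCast.2 hSn
  have hSr : ((S : ℤ) : ZMod r) = 0 := by
    rw [ZMod.intCast_zmod_eq_zero_iff_dvd]
    refine dvd_trans ?_ hSn'
    push_cast
    exact dvd_pow_self _ hk.ne'
  let b : Fin (s + 1) × Bool → ℤ := fun j => if j.2 then (1 - if j.1 = 0 then S else 0) else -1
  let a : ι ⊕ (Fin (s + 1) × Bool) → ℤ := Sum.elim (fun D => (v D : ℤ)) b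
  have hbr : ∀ j, ((b j : ℤ) : ZMod r) = if j.2 then 1 else -1 := by
    rintro ⟨j, c⟩
    cases c
    · simp [b]
    · by_cases hj : j = 0
      · simp [b, hj, hSr]
      · simp [b, hj]
  have hbn : ∀ j, ((b j : ℤ) : ZMod (r ^ k)) = if j.2 then 1 else -1 := by
    have hS0 : ((S : ℤ) : ZMod (r ^ k)) = 0 := by
      rw [ZMod.intCast_zmod_eq_zero_iff_dvd]
      exact hSn'
    rintro ⟨j, c⟩
    cases c
    · simp [b]
    · by_cases hj : j = 0
      · simp [b, hj, hS0]
      · simp [b, hj]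
  have hcard : Even (Fintype.card (ι ⊕ (Fin (s + 1) × Bool))) := by
    rw [Fintype.card_sum, hs, Fintype.card_prod, Fintype.card_bool]
    exact ⟨s + (s + 1), by rw [Fintype.card_fin]; ring⟩
  have ha : ∀ D, ¬ (r : ℤ) ∣ a D := by
    intro D hD
    rw [← ZMod.intCast_zmod_eq_zero_iff_dvd] at hD
    rcases D with D | j
    · apply hv D
      simpa [a] using hD
    · have h1 : ((b j : ℤ) : ZMod r) = 0 := by simpa [a] using hD
      rw [hbr] at h1
      split_ifs at h1
      · exact one_ne_zero h1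
      · exact one_ne_zero (neg_eq_zero.1 h1)
  have hsum0 : ∑ D, a D = 0 := by
    rw [Fintype.sum_sum_type]
    simp only [a, Sum.elim_inl, Sum.elim_inr]
    rw [Fintype.sum_prod_type]
    simp only [Fintype.sum_bool, b, if_true, Bool.false_eq_true, if_false]
    have h1 : ∀ j : Fin (s + 1), ((1 : ℤ) - (if j = 0 then S else 0)) + -1 =
        -(if j = 0 then S else 0) := by
      intro j
      ring
    rw [sum_congr rfl fun j _ => h1 j, sum_neg_distrib, sum_ite_eq' univ (0 : Fin (s + 1)),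
      if_pos (mem_univ _), ← hS]
    ring
  have hns : ¬ IsSquare (((-∏ D, a D : ℤ)) : ZMod r) := by
    intro h
    have e1 : (((-∏ D, a D : ℤ)) : ZMod r) =
        -((-1) ^ (s + 1) * ∏ D, ((v D : ℕ) : ZMod r)) := by
      rw [Fintype.prod_sum_type]
      push_cast
      simp only [a, Sum.elim_inl, Sum.elim_inr]
      rw [prod_congr rfl fun j _ => hbr j, Fintype.prod_prod_type]
      simp
      ring
    rw [e1] at h
    obtain ⟨q, hq⟩ := hsq
    have hq0 : q ≠ 0 := by
      rintro rfl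
      rw [mul_zero] at hq
      have h2 : ∏ D, ((v D : ℕ) : ZMod r) ≠ 0 := prod_ne_zero_iff.2 fun D _ => hv D
      have h3 : ((-1 : ZMod r) ^ (s + 1)) ≠ 0 := pow_ne_zero _ (neg_ne_zero.2 one_ne_zero)
      exact mul_ne_zero h3 h2 hq
    rw [hq] at h
    obtain ⟨z, hz⟩ := h
    have h1 : IsSquare (-1 : ZMod r) := ⟨z / q, by field_simp; linear_combination hz⟩
    exact (ZMod.exists_sq_eq_neg_one_iff.1 h1) h4
  obtain ⟨h, hh⟩ := exists_even hr2 hk hcard a ha hsum0 hns H hH
  refine ⟨h, ?_⟩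
  have htot : ∀ g : (ZMod (r ^ k))ˣ, total (r ^ k) a g / r ^ k =
      (∑ D, ((g : ZMod (r ^ k)) * ((v D : ℕ) : ZMod (r ^ k))).val) / r ^ k + (s + 1) := by
    intro g
    have hpair : ∀ j : Fin (s + 1), ((g : ZMod (r ^ k)) * ((b (j, true) : ℤ) : ZMod (r ^ k))).val +
        ((g : ZMod (r ^ k)) * ((b (j, false) : ℤ) : ZMod (r ^ k))).val = r ^ k := by
      intro j
      rw [hbn, hbn]
      simp only [if_true, Bool.false_eq_true, if_false, mul_one, mul_neg]
      have h1 := val_neg h1n g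
      rw [Units.val_neg] at h1
      rw [h1]
      have h2 := ZMod.val_lt (g : ZMod (r ^ k))
      omega
    have h1 : total (r ^ k) a g =
        ∑ D, ((g : ZMod (r ^ k)) * ((v D : ℕ) : ZMod (r ^ k))).val + r ^ k * (s + 1) := by
      rw [total, Fintype.sum_sum_type]
      simp only [a, Sum.elim_inl, Sum.elim_inr, Int.cast_natCast]
      rw [Fintype.sum_prod_type]
      simp only [Fintype.sum_bool]
      rw [sum_congr rfl fun j _ => hpair j, sum_const, card_univ, Fintype.card_fin, smul_eq_mul,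
        mul_comm (s + 1)]
    rw [h1, Nat.add_mul_div_left _ _ (Nat.pos_of_ne_zero hn0)]
  have : Fintype H := Fintype.ofFinite H
  rw [finsum_eq_sum_of_fintype] at hh ⊢
  rw [sum_congr rfl fun (u : H) _ => htot ((u : (ZMod (r ^ k))ˣ) * h)] at hh
  exact hh

/-- Ten exponents modulo `2 r ^ k` are replaced by an even number of exponents modulo `r ^ k`
prime to `r`. -/
theorem refine_two {r k : ℕ} [hr : Fact r.Prime] (h4 : r % 4 = 3) (hk : 0 < k)
    (hd : r ^ k ∣ 2 * r ^ k) {E : Type} [Field E]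
    (F : Pool.Agent.Helper41.RX.RField r 2 (2 * r ^ k) E) (x : Fin 10 → ZMod (2 * r ^ k))
    (hx : ∀ i, x i ≠ 0) (hsum : ∑ i, x i = 0)
    (h8 : r % 8 = 7 ∨ Even (Finset.univ.filter fun i => 2 * x i = 0).card) (y : E)
    (hy : y * F.σ y = -∏ i, (1 - F.ζ ^ (x i).val)) :
    ∃ (ι : Type) (_ : Fintype ι) (s : ℕ) (v : ι → ℕ), Fintype.card ι = 2 * s ∧
      (∀ D, ((v D : ℕ) : ZMod r) ≠ 0) ∧
      IsSquare ((-1) ^ (s + 1) * ∏ D, ((v D : ℕ) : ZMod r)) ∧
      ∀ g : (ZMod (2 * r ^ k))ˣ,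
        ∑ D, ((ZMod.unitsMap hd g : ZMod (r ^ k)) * ((v D : ℕ) : ZMod (r ^ k))).val + 5 * r ^ k =
          (∑ i, ((g : ZMod (2 * r ^ k)) * x i).val) / (2 * r ^ k) * r ^ k + s * r ^ k := by
  classical
  have hrp := hr.out
  have hr2 : r ≠ 2 := by omega
  have hR0 : r ^ k ≠ 0 := pow_ne_zero k hrp.ne_zero
  have i1 : NeZero (r ^ k) := ⟨hR0⟩
  have i2 : NeZero (2 * r ^ k) := ⟨mul_ne_zero two_ne_zero hR0⟩
  have hrodd : Odd r := hrp.odd_of_ne_two hr2
  have hodd : Odd (r ^ k) := hrodd.pow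
  have hn : 1 < r ^ k := Nat.one_lt_pow hk.ne' hrp.one_lt
  have h2r : (2 : ZMod r) ≠ 0 := by
    intro h
    have h1 : ((2 : ℕ) : ZMod r) = 0 := by exact_mod_cast h
    rw [ZMod.natCast_eq_zero_iff] at h1
    exact hr2 ((Nat.prime_dvd_prime_iff_eq hr.out Nat.prime_two).1 h1)
  -- the even and the odd exponents
  let xe : {i : Fin 10 // Even (x i).val} → ZMod (r ^ k) := fun i =>
    (((x i.1).val / 2 : ℕ) : ZMod (r ^ k))
  let z : {i : Fin 10 // ¬ Even (x i).val} → ZMod (r ^ k) := fun i =>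
    ((((x i.1).val + r ^ k) / 2 : ℕ) : ZMod (r ^ k))
  have hxe : ∀ i, xe i ≠ 0 := by
    intro i h
    obtain ⟨w, hw⟩ := i.2
    have h1 : (x i.1).val / 2 = w := by omega
    have h2 : ((w : ℕ) : ZMod (r ^ k)) = 0 := by rw [← h1]; exact h
    rw [ZMod.natCast_eq_zero_iff] at h2
    apply hx i.1
    rw [← ZMod.natCast_zmod_val (x i.1), ZMod.natCast_eq_zero_iff, hw, ← two_mul]
    exact mul_dvd_mul_left 2 h2
  have hxeval : ∀ i, (x i.1).val = 2 * (xe i).val := by
    intro i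
    obtain ⟨w, hw⟩ := i.2
    have h1 : (x i.1).val / 2 = w := by omega
    have h2 := ZMod.val_lt (x i.1)
    have h3 : (xe i).val = w := by
      change (((x i.1).val / 2 : ℕ) : ZMod (r ^ k)).val = w
      rw [h1, ZMod.val_natCast, Nat.mod_eq_of_lt (by omega)]
    rw [h3, hw, two_mul]
  -- the parity of the number of odd exponents
  have hBeven : Even (Fintype.card {i : Fin 10 // ¬ Even (x i).val}) := by
    have h1 : 2 * r ^ k ∣ ∑ i, (x i).val := by
      rw [← ZMod.natCast_eq_zero_iff]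
      push_cast
      simp only [ZMod.natCast_val, ZMod.cast_id', id]
      exact hsum
    have h2 : Even (∑ i, (x i).val) := (even_iff_two_dvd.2 (dvd_trans ⟨r ^ k, rfl⟩ h1))
    rw [Finset.even_sum_iff_even_card_odd] at h2
    rw [Fintype.card_subtype]
    simpa only [Nat.not_even_iff_odd] using h2
  have hAB : Fintype.card {i : Fin 10 // Even (x i).val} +
      Fintype.card {i : Fin 10 // ¬ Even (x i).val} = 10 := by
    have h1 := Fintype.card_subtype_compl (fun i : Fin 10 => Even (x i).val)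
    have h2 := Fintype.card_subtype_le (fun i : Fin 10 => Even (x i).val)
    rw [Fintype.card_fin] at h1 h2
    omega
  obtain ⟨o, ho⟩ := hBeven
  obtain ⟨c, hc⟩ : ∃ c, Fintype.card {i : Fin 10 // Even (x i).val} = 2 * c := ⟨5 - o, by omega⟩
  obtain ⟨ιe, iιe, se, ve, hse, hve, hpe, hge⟩ := refine_family hr2 xe hxe
  have hpair := fun i => refine_pair hr2 (z i)
  choose ιo iιo t vo hto htz hvo hqo hgo using hpair
  choose q hq using hqo
  -- the root of unity
  have hζR : F.ζ ^ r ^ k = -1 := by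
    have h1 : (F.ζ ^ r ^ k) ^ 2 = 1 := by
      rw [← pow_mul, mul_comm (r ^ k) 2]
      exact F.prim.pow_eq_one
    have h2 : F.ζ ^ r ^ k ≠ 1 := F.prim.pow_ne_one_of_pos_of_lt hR0 (by omega)
    have h3 : (F.ζ ^ r ^ k - 1) * (F.ζ ^ r ^ k + 1) = 0 := by linear_combination h1
    rcases mul_eq_zero.1 h3 with h | h
    · exact absurd (sub_eq_zero.1 h) h2
    · linear_combination h
  let F' : Pool.Agent.Helper41.RC.RField r (r ^ k) E := F.base rfl (by omega)
  have hres1 : F.res (⟨F.ζ, F.ζ_mem⟩ ^ 2) = 1 := F'.res_ζ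
  have hres : F.res ⟨F.ζ, F.ζ_mem⟩ = -1 := by
    obtain ⟨w, hw⟩ := hodd
    have h1 : (⟨F.ζ, F.ζ_mem⟩ : F.O) = -(⟨F.ζ, F.ζ_mem⟩ ^ 2) ^ (w + 1) := by
      apply Subtype.ext
      push_cast
      rw [← pow_mul]
      have h2 : 2 * (w + 1) = r ^ k + 1 := by omega
      rw [h2, pow_succ, hζR]
      ring
    rw [h1, map_neg, map_pow, hres1, one_pow]
  set Q : F.O := ∏ i : {i : Fin 10 // ¬ Even (x i).val}, (1 - ⟨F.ζ, F.ζ_mem⟩ ^ (x i.1).val) with hQ
  have hQr : F.res Q = 2 ^ Fintype.card {i : Fin 10 // ¬ Even (x i).val} := by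
    rw [hQ, map_prod, Fintype.card, ← Finset.prod_const]
    refine Finset.prod_congr rfl fun i _ => ?_
    rw [map_sub, map_one, map_pow, hres, (Nat.not_even_iff_odd.1 i.2).neg_one_pow]
    ring
  have hprod : ∏ i, (1 - F.ζ ^ (x i).val) = (∏ D, (1 - F'.ζ ^ ve D)) * (Q : E) := by
    rw [hpe F'.prim, ← Fintype.prod_subtype_mul_prod_subtype (fun i : Fin 10 => Even (x i).val)
      (fun i => 1 - F.ζ ^ (x i).val)]
    congr 1
    · refine Finset.prod_congr rfl fun i _ => ?_
      rw [hxeval i, pow_mul]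
      rfl
    · rw [hQ]
      push_cast
      rfl
  have hsqe : IsSquare ((-1) ^ (c + se + 1) * ((∏ D, ((ve D : ℕ) : ZMod r)) * F.res Q)) := by
    refine F'.isSquare_of_norm' hn (s := c + se) (by rw [hse, hc]; ring) ve hve Q ?_ y ?_
    · change F.res Q ≠ 0
      rw [hQr]
      exact pow_ne_zero _ h2r
    · rw [← hprod]
      exact hy
  -- the parity of the exponent of two
  have hpar : IsSquare ((2 : ZMod r) ^ (Fintype.card {i : Fin 10 // ¬ Even (x i).val} +
      ∑ i, t i)) := by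
    rcases h8 with h8 | h8
    · have h1 : IsSquare (2 : ZMod r) := (ZMod.exists_sq_eq_two_iff hr2).2 (Or.inr h8)
      exact h1.pow _
    · have h1 : (univ.filter fun i => 2 * x i = 0).card =
          ∑ i : {i : Fin 10 // ¬ Even (x i).val}, if z i = 0 then 1 else 0 := by
        rw [Finset.card_filter, ← Fintype.sum_subtype_add_sum_subtype
          (fun i : Fin 10 => Even (x i).val) (fun i => if 2 * x i = 0 then 1 else 0)]
        have h2 : ∑ i : {i : Fin 10 // Even (x i).val}, (if 2 * x i = 0 then 1 else 0) = 0 := by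
          refine Finset.sum_eq_zero fun i _ => ?_
          rw [if_neg]
          intro h
          exact ((half_eq_zero hodd (x i) (hx i)).1 h).1 i.2
        rw [h2, zero_add]
        refine Finset.sum_congr rfl fun i _ => ?_
        have h3 : 2 * x i.1 = 0 ↔ z i = 0 := by
          rw [half_eq_zero hodd (x i) (hx i)]
          exact ⟨fun h => h.2, fun h => ⟨i.2, h⟩⟩
        by_cases h4 : z i = 0
        · rw [if_pos h4, if_pos (h3.2 h4)]
        · rw [if_neg h4, if_neg fun h => h4 (h3.1 h)]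
      rw [h1] at h8
      have h2 : Even (∑ i : {i : Fin 10 // ¬ Even (x i).val},
          ((1 + t i) + if z i = 0 then 1 else 0)) := by
        refine Finset.even_sum _ fun i _ => ?_
        by_cases h3 : z i = 0
        · rw [if_pos h3]
          have h4 : ¬ Odd (t i) := fun h => (htz i).1 h h3
          rw [Nat.not_odd_iff_even] at h4
          obtain ⟨w, hw⟩ := h4
          exact ⟨w + 1, by omega⟩
        · rw [if_neg h3]
          obtain ⟨w, hw⟩ := (htz i).2 h3
          exact ⟨w + 1, by omega⟩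
      rw [Finset.sum_add_distrib, Nat.even_add] at h2
      have h3 := h2.2 h8
      rw [Finset.sum_add_distrib, Finset.sum_const, smul_eq_mul, mul_one, card_univ] at h3
      obtain ⟨w, hw⟩ := h3
      rw [hw]
      exact ⟨2 ^ w, pow_add _ _ _⟩
  refine ⟨ιe ⊕ (Σ i : {i : Fin 10 // ¬ Even (x i).val}, ιo i), inferInstance,
    c + se + ∑ i, t i, Sum.elim ve (fun D => vo D.1 D.2), ?_, ?_, ?_, ?_⟩
  · rw [Fintype.card_sum, Fintype.card_sigma, hse, hc, sum_congr rfl fun i _ => hto i, ← mul_sum]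
    ring
  · rintro (D | D)
    · exact hve D
    · exact hvo D.1 D.2
  · rw [Fintype.prod_sum_type, Fintype.prod_sigma]
    simp only [Sum.elim_inl, Sum.elim_inr]
    rw [prod_congr rfl fun i _ => hq i, prod_mul_distrib, prod_pow_eq_pow_sum, prod_pow]
    obtain ⟨w, hw⟩ := hsqe
    obtain ⟨u, hu⟩ := hpar
    rw [hQr] at hw
    set b := Fintype.card {i : Fin 10 // ¬ Even (x i).val}
    set T := ∑ i, t i
    have h2b : (2 : ZMod r) ^ b ≠ 0 := pow_ne_zero _ h2r
    refine ⟨w * u * ((2 : ZMod r) ^ b)⁻¹ * ∏ i, q i, ?_⟩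
    have e1 : ((-1 : ZMod r)) ^ (c + se + T + 1) * (-2) ^ T = (-1) ^ (c + se + 1) * 2 ^ T := by
      have h3 : (-1 : ZMod r) ^ T * (-2) ^ T = 2 ^ T := by
        rw [← mul_pow]
        norm_num
      rw [← h3]
      ring
    rw [pow_add] at hu
    have e2 : (2 : ZMod r) ^ b * ((2 : ZMod r) ^ b)⁻¹ = 1 := mul_inv_cancel₀ h2b
    have e3 : w * u * ((2 : ZMod r) ^ b)⁻¹ * (∏ i, q i) * (w * u * ((2 : ZMod r) ^ b)⁻¹ *
        ∏ i, q i) = (w * w) * (u * u) * (((2 : ZMod r) ^ b)⁻¹) ^ 2 * (∏ i, q i) ^ 2 := by ring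
    rw [e3, ← hw, ← hu]
    linear_combination (∏ D, ((ve D : ℕ) : ZMod r)) * (∏ i, q i) ^ 2 * e1 -
      (-1) ^ (c + se + 1) * (∏ D, ((ve D : ℕ) : ZMod r)) * 2 ^ T * (∏ i, q i) ^ 2 *
        (2 ^ b * ((2 : ZMod r) ^ b)⁻¹ + 1) * e2
  · intro g
    set g' := ZMod.unitsMap hd g with hg'
    -- the sum over the ten exponents
    have h1 := Fintype.sum_subtype_add_sum_subtype (fun i : Fin 10 => Even (x i).val)
      (fun i => ((g : ZMod (2 * r ^ k)) * x i).val)
    have h2 : ∑ i : {i : Fin 10 // Even (x i).val}, ((g : ZMod (2 * r ^ k)) * x i).val =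
        2 * ∑ i, ((g' : ZMod (r ^ k)) * xe i).val := by
      rw [mul_sum]
      exact sum_congr rfl fun i _ => val_even hd g (x i) i.2
    have h3 : ∑ i : {i : Fin 10 // ¬ Even (x i).val}, ((g : ZMod (2 * r ^ k)) * x i).val +
        2 * ∑ i, ((g' : ZMod (r ^ k)) * z i).val =
        2 * ∑ i, ((g' : ZMod (r ^ k)) * (2 * z i)).val + (o + o) * r ^ k := by
      have e0 : (o + o) * r ^ k = ∑ _i : {i : Fin 10 // ¬ Even (x i).val}, r ^ k := by
        rw [sum_const, smul_eq_mul, card_univ, ho]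
      rw [e0, mul_sum, mul_sum, ← sum_add_distrib, ← sum_add_distrib]
      exact sum_congr rfl fun i _ => val_odd hodd hd g (x i) i.2
    have h4 : ∑ i : {i : Fin 10 // ¬ Even (x i).val}, ∑ D, ((g' : ZMod (r ^ k)) *
        ((vo i D : ℕ) : ZMod (r ^ k))).val + ∑ i, ((g' : ZMod (r ^ k)) * z i).val =
        ∑ i, ((g' : ZMod (r ^ k)) * (2 * z i)).val + (∑ i, t i) * r ^ k := by
      rw [sum_mul, ← sum_add_distrib, ← sum_add_distrib]
      exact sum_congr rfl fun i _ => hgo i g'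
    have h5 := hge g'
    have h6 : 2 * r ^ k ∣ ∑ i, ((g : ZMod (2 * r ^ k)) * x i).val := by
      rw [← ZMod.natCast_eq_zero_iff]
      push_cast
      simp only [ZMod.natCast_val, ZMod.cast_id', id]
      rw [← mul_sum, hsum, mul_zero]
    obtain ⟨w, hw⟩ := h6
    rw [Fintype.sum_sum_type, Fintype.sum_sigma]
    simp only [Sum.elim_inl, Sum.elim_inr]
    rw [hw, Nat.mul_div_cancel_left _ (by omega : 0 < 2 * r ^ k)]
    have hco : c + o = 5 := by omega
    obtain ⟨R, hR⟩ : ∃ R, R = r ^ k := ⟨_, rfl⟩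
    have h7 : 5 * r ^ k = c * r ^ k + o * r ^ k := by rw [← hco]; ring
    have h8 : (c + se + ∑ i, t i) * r ^ k = c * r ^ k + se * r ^ k + (∑ i, t i) * r ^ k := by ring
    have h9 : 2 * r ^ k * w = 2 * (w * r ^ k) := by ring
    have h10 : (o + o) * r ^ k = 2 * (o * r ^ k) := by ring
    rw [h7, h8]
    rw [hw, h9] at h1
    rw [h10] at h3
    omega

/-- **The criterion.** If minus the product of the ten numbers `1 - ζ ^ x` is a norm,
`r = 3 mod 4`, `n = 2 r ^ k`, and the number of the exponents of order two is even or `r = 7` modulo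
eight, then there is an odd place. -/
theorem oddPlace_two {p r k : ℕ} [Fact p.Prime] [hr : Fact r.Prime] (h4 : r % 4 = 3)
    (hk : 0 < k) (hpn : p.Coprime (2 * r ^ k)) {E : Type} [Field E]
    (F : Pool.Agent.Helper41.RX.RField r 2 (2 * r ^ k) E) {a : Fin 5 → ZMod (2 * r ^ k)}
    (ha : ∀ i, residues a i ≠ 0)
    (h8 : r % 8 = 7 ∨ Even (Finset.univ.filter fun i => 2 * residues a i = 0).card)
    (hm : Odd (orderOf (ZMod.unitOfCoprime p hpn))) (y : E)
    (hy : y * F.σ y = -∏ i, (1 - F.ζ ^ (residues a i).val)) : OddPlace p a := by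
  have hR0 : r ^ k ≠ 0 := pow_ne_zero k hr.out.ne_zero
  have hR : 0 < r ^ k := Nat.pos_of_ne_zero hR0
  have i1 : NeZero (r ^ k) := ⟨hR0⟩
  have i2 : NeZero (2 * r ^ k) := ⟨mul_ne_zero two_ne_zero hR0⟩
  have hr2 : r ≠ 2 := by omega
  have hodd : Odd (r ^ k) := (hr.out.odd_of_ne_two hr2).pow
  have hd : r ^ k ∣ 2 * r ^ k := ⟨2, mul_comm _ _⟩
  have hsum : ∑ i, residues a i = 0 := by
    simp only [residues, Fin.sum_univ_succ, Fin.sum_univ_zero]
    simp
    ring
  obtain ⟨ι, iι, s, v, hs, hv, hsq, hg⟩ := refine_two h4 hk hd F (residues a) ha hsum h8 y hy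
  set P := ZMod.unitOfCoprime p hpn with hPdef
  have hP : (P : ZMod (2 * r ^ k)) = p := ZMod.coe_unitOfCoprime p hpn
  set m := orderOf P with hmdef
  have hm' : orderOf (ZMod.unitsMap hd P) = m := orderOf_injective _ (unitsMap_injective hodd hd) P
  have hSn : r ^ k ∣ ∑ D, v D := by
    have h1 := congrArg (fun t : ℕ => (t : ZMod (r ^ k))) (hg 1)
    push_cast at h1
    simp only [map_one, Units.val_one, one_mul, ZMod.natCast_val, ZMod.cast_id', id] at h1
    have h2 : ((r : ZMod (r ^ k)) ^ k) = 0 := by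
      have h3 := ZMod.natCast_self (r ^ k)
      push_cast at h3
      exact h3
    rw [h2, mul_zero, mul_zero, mul_zero, add_zero, add_zero] at h1
    rw [← ZMod.natCast_eq_zero_iff]
    push_cast
    exact h1
  obtain ⟨h, hh⟩ := exists_even_total h4 hk hs v hv hSn hsq
    (Subgroup.zpowers (ZMod.unitsMap hd P)) (by rw [Nat.card_zpowers, hm']; exact hm)
  rw [finsum_zpowers (ZMod.unitsMap hd P) (fun u => (∑ D, (((u * h : (ZMod (r ^ k))ˣ) :
    ZMod (r ^ k)) * ((v D : ℕ) : ZMod (r ^ k))).val) / r ^ k + (s + 1)), hm'] at hh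
  obtain ⟨h', hh'⟩ := ZMod.unitsMap_surjective hd h
  refine ⟨m, orderOf_pos P, ?_, h', ?_⟩
  · intro i
    have h1 := congrArg Units.val (pow_orderOf_eq_one P)
    rw [Units.val_pow_eq_pow_val, hP, Units.val_one] at h1
    rw [h1, one_mul]
  · refine hm.add_even ?_
    have h1 : ∀ j, (height fun i => (h' : ZMod (2 * r ^ k)) * (p : ZMod (2 * r ^ k)) ^ j * a i) +
        2 * s = ((∑ D, ((((ZMod.unitsMap hd P) ^ j * h : (ZMod (r ^ k))ˣ) :
          ZMod (r ^ k)) * ((v D : ℕ) : ZMod (r ^ k))).val) / r ^ k + (s + 1)) + 2 * 2 := by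
      intro j
      have e1 : (height fun i => (h' : ZMod (2 * r ^ k)) * (p : ZMod (2 * r ^ k)) ^ j * a i) =
          (∑ i, (((P ^ j * h' : (ZMod (2 * r ^ k))ˣ) : ZMod (2 * r ^ k)) *
            residues a i).val) / (2 * r ^ k) := by
        rw [height]
        congr 1
        refine sum_congr rfl fun i _ => ?_
        rw [residues_mul, Units.val_mul, Units.val_pow_eq_pow_val, hP,
          mul_comm (h' : ZMod (2 * r ^ k))]
      have e2 : ZMod.unitsMap hd (P ^ j * h') = (ZMod.unitsMap hd P) ^ j * h := by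
        rw [map_mul, map_pow, hh']
      have e3 := hg (P ^ j * h')
      rw [e2, ← e1] at e3
      have e4 := congrArg (fun t : ℕ => t / r ^ k) e3
      beta_reduce at e4
      rw [Nat.add_mul_div_right _ _ hR, ← add_mul, Nat.mul_div_cancel _ hR] at e4
      omega
    have h2 : ∑ j ∈ Finset.range m, ((height fun i => (h' : ZMod (2 * r ^ k)) *
        (p : ZMod (2 * r ^ k)) ^ j * a i) + 2 * s) = ∑ j ∈ Finset.range m,
        (((∑ D, ((((ZMod.unitsMap hd P) ^ j * h : (ZMod (r ^ k))ˣ) :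
          ZMod (r ^ k)) * ((v D : ℕ) : ZMod (r ^ k))).val) / r ^ k + (s + 1)) + 2 * 2) :=
      sum_congr rfl fun j _ => h1 j
    rw [sum_add_distrib, sum_add_distrib] at h2
    have h3 : Even (∑ j ∈ Finset.range m, ((∑ D, ((((ZMod.unitsMap hd P) ^ j * h :
        (ZMod (r ^ k))ˣ) : ZMod (r ^ k)) * ((v D : ℕ) : ZMod (r ^ k))).val) / r ^ k + (s + 1)) +
        ∑ _j ∈ Finset.range m, 2 * 2) :=
      hh.add (Finset.even_sum _ fun _ _ => even_two_mul 2)
    rw [← h2] at h3
    exact (Nat.even_add.1 h3).2 (Finset.even_sum _ fun _ _ => even_two_mul s)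

end Pool.Agent.Helper79.RC
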