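import Pool.Agent.Helper79.RC.Parity
import Pool.Agent.Helper41.RX.Field

/-!
# Exponents modulo `2 r ^ k`: the exponents modulo `r ^ k` which replace them
-/

set_option autoImplicit false

open Finset

namespace Pool.Agent.Helper79.RC

open Pool.Agent.Helper79.QC Pool.Agent.Helper73.QC

/-- Exponents modulo `r ^ k` are replaced by exponents prime to `r`. -/
theorem refine_family {r k : ℕ} [hr : Fact r.Prime] (hr2 : r ≠ 2) {ι₀ : Type} [Fintype ι₀]
    (x : ι₀ → ZMod (r ^ k)) (hx : ∀ i, x i ≠ 0) :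
    ∃ (ι : Type) (_ : Fintype ι) (s : ℕ) (v : ι → ℕ),
      Fintype.card ι = Fintype.card ι₀ + 2 * s ∧
      (∀ D, ((v D : ℕ) : ZMod r) ≠ 0) ∧
      (∀ {E : Type} [Field E] {ζ : E}, IsPrimitiveRoot ζ (r ^ k) →
        ∏ D, (1 - ζ ^ v D) = ∏ i, (1 - ζ ^ (x i).val)) ∧
      ∀ g : (ZMod (r ^ k))ˣ, ∑ D, ((g : ZMod (r ^ k)) * ((v D : ℕ) : ZMod (r ^ k))).val =
        ∑ i, ((g : ZMod (r ^ k)) * x i).val + s * r ^ k := by
  have : NeZero (r ^ k) := ⟨pow_ne_zero k hr.out.ne_zero⟩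
  have hodd : Odd r := hr.out.odd_of_ne_two hr2
  have h1 : ∀ i, ∃ e y : ℕ, ¬ r ∣ y ∧ (x i).val = r ^ e * y := fun i =>
    Nat.exists_eq_pow_mul_and_not_dvd (fun h => hx i ((ZMod.val_eq_zero _).1 h)) r
      hr.out.ne_one
  choose e y hy hxy using h1
  have he : ∀ i, e i < k := by
    intro i
    have h2 : r ^ e i < r ^ k := by
      refine lt_of_le_of_lt ?_ (ZMod.val_lt (x i))
      rw [hxy i]
      refine Nat.le_mul_of_pos_right _ (Nat.pos_of_ne_zero ?_)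
      rintro h
      exact hy i (h ▸ dvd_zero r)
    exact (Nat.pow_lt_pow_iff_right hr.out.one_lt).1 h2
  have hx2 : ∀ i, x i = ((r ^ e i * y i : ℕ) : ZMod (r ^ k)) := by
    intro i
    rw [← hxy, ZMod.natCast_zmod_val]
  have hc : ∀ i, r ^ e i = 1 + 2 * ((r ^ e i - 1) / 2) := by
    intro i
    obtain ⟨c, hc⟩ := hodd.pow (n := e i)
    omega
  refine ⟨Σ i : ι₀, Fin (r ^ e i), inferInstance, ∑ i, (r ^ e i - 1) / 2,
    fun D => y D.1 + r ^ (k - e D.1) * (D.2 : ℕ), ?_, ?_, ?_, ?_⟩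
  · rw [Fintype.card_sigma]
    simp only [Fintype.card_fin]
    rw [sum_congr rfl fun i _ => hc i, sum_add_distrib, ← mul_sum]
    simp
  · rintro ⟨i, j⟩ h
    apply hy i
    have h2 : ((r ^ (k - e i) * (j : ℕ) : ℕ) : ZMod r) = 0 := by
      rw [ZMod.natCast_eq_zero_iff]
      exact Dvd.dvd.mul_right (dvd_pow_self r (by have := he i; omega)) _
    rw [Nat.cast_add, h2, add_zero, ZMod.natCast_eq_zero_iff] at h
    exact h
  · intro E _ ζ hζ
    rw [Fintype.prod_sigma]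
    refine prod_congr rfl fun i _ => ?_
    rw [prod_shift (y i) hr.out.pos (he i).le hζ, hxy i]
  · intro g
    rw [Fintype.sum_sigma]
    rw [sum_congr rfl fun i _ => sum_shift (y i) hr.out.pos hodd (he i).le g, sum_add_distrib]
    simp only [← hx2, ← sum_mul]

/-- The pair of exponents `2 z`, `-z` is replaced by exponents prime to `r`. -/
theorem refine_pair {r k : ℕ} [hr : Fact r.Prime] (hr2 : r ≠ 2) (z : ZMod (r ^ k)) :
    ∃ (ι : Type) (_ : Fintype ι) (t : ℕ) (v : ι → ℕ),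
      Fintype.card ι = 2 * t ∧ (Odd t ↔ z ≠ 0) ∧
      (∀ D, ((v D : ℕ) : ZMod r) ≠ 0) ∧
      (∃ q : ZMod r, ∏ D, ((v D : ℕ) : ZMod r) = (-2) ^ t * q ^ 2) ∧
      ∀ g : (ZMod (r ^ k))ˣ, ∑ D, ((g : ZMod (r ^ k)) * ((v D : ℕ) : ZMod (r ^ k))).val +
        ((g : ZMod (r ^ k)) * z).val = ((g : ZMod (r ^ k)) * (2 * z)).val + t * r ^ k := by
  have : NeZero (r ^ k) := ⟨pow_ne_zero k hr.out.ne_zero⟩
  have hodd : Odd r := hr.out.odd_of_ne_two hr2
  have h2r : (2 : ZMod r) ≠ 0 := by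
    intro h
    have h1 : ((2 : ℕ) : ZMod r) = 0 := by exact_mod_cast h
    rw [ZMod.natCast_eq_zero_iff] at h1
    exact hr2 ((Nat.prime_dvd_prime_iff_eq hr.out Nat.prime_two).1 h1)
  by_cases hz : z = 0
  · refine ⟨Fin 0, inferInstance, 0, fun _ => 0, by simp, by simp [hz], fun D => D.elim0,
      ⟨1, by simp⟩, ?_⟩
    intro g
    simp [hz]
  obtain ⟨e, y, hy, hzy⟩ := Nat.exists_eq_pow_mul_and_not_dvd
    (fun h => hz ((ZMod.val_eq_zero _).1 h)) r hr.out.ne_one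
  have he : e < k := by
    have h2 : r ^ e < r ^ k := by
      refine lt_of_le_of_lt ?_ (ZMod.val_lt z)
      rw [hzy]
      refine Nat.le_mul_of_pos_right _ (Nat.pos_of_ne_zero ?_)
      rintro h
      exact hy (h ▸ dvd_zero r)
    exact (Nat.pow_lt_pow_iff_right hr.out.one_lt).1 h2
  have hz2 : z = ((r ^ e * y : ℕ) : ZMod (r ^ k)) := by
    rw [← hzy, ZMod.natCast_zmod_val]
  have hself : ((r : ZMod (r ^ k)) ^ k) = 0 := by
    have h3 := ZMod.natCast_self (r ^ k)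
    push_cast at h3
    exact h3
  have hy0 : ((y : ℕ) : ZMod r) ≠ 0 := by
    rw [Ne, ZMod.natCast_eq_zero_iff]
    exact hy
  have h1k : 1 ≤ r ^ k := Nat.one_le_pow _ _ hr.out.pos
  have h2 : ∀ j : ℕ, ((r ^ (k - e) * j : ℕ) : ZMod r) = 0 := by
    intro j
    rw [ZMod.natCast_eq_zero_iff]
    exact Dvd.dvd.mul_right (dvd_pow_self r (by omega)) _
  have hv1 : ∀ j : ℕ, ((2 * y + r ^ (k - e) * j : ℕ) : ZMod r) = 2 * (y : ZMod r) := by
    intro j
    rw [Nat.cast_add, h2, add_zero, Nat.cast_mul, Nat.cast_ofNat]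
  have hrk : ((r ^ k : ℕ) : ZMod r) = 0 := by
    rw [ZMod.natCast_eq_zero_iff]
    exact dvd_pow_self r (by omega)
  have hv2 : ∀ j : ℕ, (((r ^ k - 1) * y + r ^ (k - e) * j : ℕ) : ZMod r) = -(y : ZMod r) := by
    intro j
    rw [Nat.cast_add, h2, add_zero, Nat.cast_mul, Nat.cast_sub h1k, hrk]
    ring
  have hto : Odd (r ^ e) := hodd.pow
  obtain ⟨c, hc⟩ := hto
  refine ⟨Fin (r ^ e) ⊕ Fin (r ^ e), inferInstance, r ^ e,
    Sum.elim (fun j => 2 * y + r ^ (k - e) * (j : ℕ))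
      (fun j => (r ^ k - 1) * y + r ^ (k - e) * (j : ℕ)), ?_, ?_, ?_, ?_, ?_⟩
  · rw [Fintype.card_sum, Fintype.card_fin, two_mul]
  · exact ⟨fun _ => hz, fun _ => hodd.pow⟩
  · rintro (j | j)
    · change ((2 * y + r ^ (k - e) * (j : ℕ) : ℕ) : ZMod r) ≠ 0
      rw [hv1]
      exact mul_ne_zero h2r hy0
    · change (((r ^ k - 1) * y + r ^ (k - e) * (j : ℕ) : ℕ) : ZMod r) ≠ 0
      rw [hv2]
      exact neg_ne_zero.2 hy0
  · refine ⟨(y : ZMod r) ^ (r ^ e), ?_⟩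
    rw [Fintype.prod_sum_type]
    simp only [Sum.elim_inl, Sum.elim_inr]
    rw [prod_congr rfl fun (j : Fin (r ^ e)) _ => hv1 (j : ℕ),
      prod_congr rfl fun (j : Fin (r ^ e)) _ => hv2 (j : ℕ), prod_const, prod_const, card_univ,
      Fintype.card_fin, ← mul_pow, ← pow_mul, mul_comm (r ^ e) 2, pow_mul, ← mul_pow]
    congr 1
    ring
  · intro g
    rw [Fintype.sum_sum_type]
    simp only [Sum.elim_inl, Sum.elim_inr]
    rw [sum_shift (2 * y) hr.out.pos hodd he.le g,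
      sum_shift ((r ^ k - 1) * y) hr.out.pos hodd he.le g]
    have e1 : ((r ^ e * (2 * y) : ℕ) : ZMod (r ^ k)) = 2 * z := by
      rw [hz2]
      push_cast
      ring
    have e2 : ((r ^ e * ((r ^ k - 1) * y) : ℕ) : ZMod (r ^ k)) = -z := by
      rw [hz2]
      push_cast [Nat.cast_sub h1k]
      rw [hself]
      ring
    have hgz : (g : ZMod (r ^ k)) * z ≠ 0 := by
      intro h
      exact hz ((Units.mul_right_eq_zero g).1 h)
    have e3 : ((g : ZMod (r ^ k)) * (-z)).val + ((g : ZMod (r ^ k)) * z).val = r ^ k := by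
      rw [mul_neg, ZMod.neg_val, if_neg hgz]
      have := ZMod.val_lt ((g : ZMod (r ^ k)) * z)
      omega
    rw [e1, e2]
    have e4 : (r ^ e - 1) / 2 = c := by omega
    have e5 : r ^ e * r ^ k = c * r ^ k + (c * r ^ k + r ^ k) := by
      rw [hc]
      ring
    rw [e4, e5]
    omega

end Pool.Agent.Helper79.RC
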