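import Pool.Agent.Helper79.RC.TwoA

/-!
# Exponents modulo `2 r ^ k`: the heights
-/

set_option autoImplicit false

open Finset

namespace Pool.Agent.Helper79.RC

open Pool.Agent.Helper79.QC Pool.Agent.Helper73.QC

section

variable {R : ℕ} [NeZero R] [NeZero (2 * R)]

/-- the reduction of a multiple of a residue -/
theorem val_red (hd : R ∣ 2 * R) (g : (ZMod (2 * R))ˣ) (w : ℕ) :
    ((ZMod.unitsMap hd g : ZMod R) * (w : ZMod R)).val = ((g : ZMod (2 * R)).val * w) % R := by
  have h1 : (ZMod.unitsMap hd g : ZMod R) = (((g : ZMod (2 * R)).val : ℕ) : ZMod R) := by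
    rw [ZMod.unitsMap_def]
    change ZMod.castHom hd (ZMod R) (g : ZMod (2 * R)) = _
    rw [← map_natCast (ZMod.castHom hd (ZMod R)), ZMod.natCast_zmod_val]
  rw [h1, ← Nat.cast_mul, ZMod.val_natCast]

theorem val_even (hd : R ∣ 2 * R) (g : (ZMod (2 * R))ˣ) (x : ZMod (2 * R)) (hx : Even x.val) :
    ((g : ZMod (2 * R)) * x).val =
      2 * ((ZMod.unitsMap hd g : ZMod R) * ((x.val / 2 : ℕ) : ZMod R)).val := by
  obtain ⟨w, hw⟩ := hx
  have h1 : x.val / 2 = w := by omega
  rw [val_red, h1, ZMod.val_mul, hw, ← two_mul, mul_left_comm, Nat.mul_mod_mul_left]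

theorem val_odd (hodd : Odd R) (hd : R ∣ 2 * R) (g : (ZMod (2 * R))ˣ) (x : ZMod (2 * R))
    (hx : ¬ Even x.val) :
    ((g : ZMod (2 * R)) * x).val +
      2 * ((ZMod.unitsMap hd g : ZMod R) * (((x.val + R) / 2 : ℕ) : ZMod R)).val =
      2 * ((ZMod.unitsMap hd g : ZMod R) * (2 * (((x.val + R) / 2 : ℕ) : ZMod R))).val + R := by
  have hR : 0 < R := Nat.pos_of_ne_zero (NeZero.ne R)
  rw [Nat.not_even_iff_odd] at hx
  obtain ⟨w, hw⟩ := hx.add_odd hodd
  have h1 : (x.val + R) / 2 = w := by omega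
  have h2 : (2 * ((w : ℕ) : ZMod R)) = ((2 * w : ℕ) : ZMod R) := by
    push_cast
    ring
  rw [h1, h2, val_red, val_red, ZMod.val_mul]
  set G := (g : ZMod (2 * R)).val with hG
  have hcop : G.Coprime (2 * R) := ZMod.val_coe_unit_coprime g
  have hGo : Odd G := by
    rw [← Nat.coprime_two_right]
    exact hcop.coprime_mul_right_right
  have hV : Odd (G * x.val % (2 * R)) := by
    have h3 : G * x.val % (2 * R) % 2 = G * x.val % 2 := Nat.mod_mod_of_dvd _ ⟨R, rfl⟩
    rw [Nat.odd_iff, h3, ← Nat.odd_iff]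
    exact hGo.mul hx
  have hVlt : G * x.val % (2 * R) < 2 * R := Nat.mod_lt _ (by omega)
  have hU : G * (2 * w) % R = G * x.val % (2 * R) % R := by
    rw [Nat.mod_mod_of_dvd _ ⟨2, mul_comm 2 R⟩]
    have h4 : G * (2 * w) = G * x.val + G * R := by
      have : 2 * w = x.val + R := by omega
      rw [this]
      ring
    rw [h4, Nat.add_mul_mod_self_right]
  have hW : G * (2 * w) % R = 2 * (G * w % R) % R := by
    have h4 : G * (2 * w) = 2 * (G * w) := by ring
    rw [h4, Nat.mul_mod_mod]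
  set V := G * x.val % (2 * R)
  set W := G * w % R
  have hWlt : W < R := Nat.mod_lt _ hR
  rw [hU] at hW ⊢
  have hVU : V = V % R ∨ V = V % R + R := by
    rcases lt_or_ge V R with h | h
    · left
      rw [Nat.mod_eq_of_lt h]
    · right
      rw [Nat.mod_eq_sub_mod h, Nat.mod_eq_of_lt (by omega)]
      omega
  have hWU : 2 * W = 2 * W % R ∨ 2 * W = 2 * W % R + R := by
    rcases lt_or_ge (2 * W) R with h | h
    · left
      rw [Nat.mod_eq_of_lt h]
    · right
      rw [Nat.mod_eq_sub_mod h, Nat.mod_eq_of_lt (by omega)]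
      omega
  rw [← hW] at hWU
  obtain ⟨a, ha⟩ := hodd
  obtain ⟨b, hb⟩ := hV
  omega

/-- the residues of order two -/
theorem half_eq_zero (hodd : Odd R) (x : ZMod (2 * R)) (hx0 : x ≠ 0) :
    2 * x = 0 ↔ ¬ Even x.val ∧ (((x.val + R) / 2 : ℕ) : ZMod R) = 0 := by
  have hR : 0 < R := Nat.pos_of_ne_zero (NeZero.ne R)
  have hlt := ZMod.val_lt x
  have hpos : 0 < x.val := Nat.pos_of_ne_zero fun h => hx0 ((ZMod.val_eq_zero _).1 h)
  have h1 : 2 * x = 0 ↔ x.val = R := by
    have h2 : 2 * x = ((2 * x.val : ℕ) : ZMod (2 * R)) := by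
      push_cast
      rw [ZMod.natCast_zmod_val]
    rw [h2, ZMod.natCast_eq_zero_iff]
    constructor
    · intro h
      have h3 : R ∣ x.val := Nat.dvd_of_mul_dvd_mul_left (by norm_num) h
      obtain ⟨c, hc⟩ := h3
      have hc1 : c = 1 := by
        have h4 : c < 2 := by
          by_contra h5
          have : R * 2 ≤ R * c := Nat.mul_le_mul_left R (by omega)
          omega
        have h5 : c ≠ 0 := by
          rintro rfl
          omega
        omega
      rw [hc, hc1, mul_one]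
    · intro h
      rw [h]
  rw [h1]
  constructor
  · intro h
    refine ⟨?_, ?_⟩
    · rw [h, Nat.not_even_iff_odd]
      exact hodd
    · rw [h]
      have h2 : (R + R) / 2 = R := by omega
      rw [h2, ZMod.natCast_self]
  · rintro ⟨h2, h3⟩
    rw [Nat.not_even_iff_odd] at h2
    obtain ⟨w, hw⟩ := h2.add_odd hodd
    have h4 : (x.val + R) / 2 = w := by omega
    rw [h4, ZMod.natCast_eq_zero_iff] at h3
    obtain ⟨c, hc⟩ := h3
    have hc1 : c = 1 := by
      have h4 : c < 2 := by
        by_contra h5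
        have : R * 2 ≤ R * c := Nat.mul_le_mul_left R (by omega)
        omega
      have h5 : c ≠ 0 := by
        rintro rfl
        omega
      omega
    rw [hc1, mul_one] at hc
    omega

theorem unitsMap_injective (hodd : Odd R) (hd : R ∣ 2 * R) :
    Function.Injective (ZMod.unitsMap hd) := by
  intro g h hgh
  have h1 : (ZMod.unitsMap hd g : ZMod R) * ((1 : ℕ) : ZMod R) =
      (ZMod.unitsMap hd h : ZMod R) * ((1 : ℕ) : ZMod R) := by rw [hgh]
  have h2 := congrArg ZMod.val h1
  rw [val_red, val_red, mul_one, mul_one] at h2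
  have hg : Odd (g : ZMod (2 * R)).val := by
    rw [← Nat.coprime_two_right]
    exact (ZMod.val_coe_unit_coprime g).coprime_mul_right_right
  have hh : Odd (h : ZMod (2 * R)).val := by
    rw [← Nat.coprime_two_right]
    exact (ZMod.val_coe_unit_coprime h).coprime_mul_right_right
  have h3 : (g : ZMod (2 * R)).val ≡ (h : ZMod (2 * R)).val [MOD 2] := by
    rw [Nat.odd_iff] at hg hh
    rw [Nat.ModEq, hg, hh]
  have h4 : (g : ZMod (2 * R)).val ≡ (h : ZMod (2 * R)).val [MOD 2 * R] :=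
    (Nat.modEq_and_modEq_iff_modEq_mul (Nat.coprime_two_left.2 hodd)).1 ⟨h3, h2⟩
  apply Units.ext
  apply ZMod.val_injective
  rw [Nat.ModEq, Nat.mod_eq_of_lt (ZMod.val_lt _), Nat.mod_eq_of_lt (ZMod.val_lt _)] at h4
  exact h4

end

end Pool.Agent.Helper79.RC
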